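import Pool.Agent.H50.SC.Defs

set_option autoImplicit false

/-! # Task A: tensorised quadratic forms -/

namespace Pool.Agent.H50.SC

open Finset

namespace TA

variable {κ : Type} [Fintype κ] [DecidableEq κ]

lemma sum_cons {n : ℕ} (F : Col (n + 1) κ → ℝ) :
    ∑ x : Col (n + 1) κ, F x =
      ∑ c : Option κ, ∑ x : Col n κ, F (Fin.cons c x : Fin (n + 1) → Option κ) := by
  rw [← (Fin.consEquiv (fun _ : Fin (n + 1) => Option κ)).sum_comp, Fintype.sum_prod_type]
  rfl

lemma EE_cons {n : ℕ} (g : Fin (n + 1) → ℝ) (F : Col (n + 1) κ → ℝ) :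
    EE g F = ∑ c : Option κ, wt (g 0) c *
      EE (fun i => g i.succ) (fun x : Col n κ => F (Fin.cons c x : Fin (n + 1) → Option κ)) := by
  unfold EE
  rw [sum_cons]
  apply Finset.sum_congr rfl
  intro c _
  rw [Finset.mul_sum]
  apply Finset.sum_congr rfl
  intro x _
  rw [Fin.prod_univ_succ]
  simp only [Fin.cons_zero, Fin.cons_succ]
  ring

lemma VV_cons {n : ℕ} (g : Fin (n + 1) → ℝ) (y : Col (n + 1) κ → ℝ) (c : Option κ) (x : Col n κ) :
    VV g y (Fin.cons c x : Fin (n + 1) → Option κ) =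
      VV (fun i => g i.succ) (fun D : Col n κ => ∑ a : Option κ, psi1 (g 0) a c *
        y (Fin.cons a D : Fin (n + 1) → Option κ)) x := by
  unfold VV psi
  rw [sum_cons, Finset.sum_comm]
  apply Finset.sum_congr rfl
  intro D _
  rw [Finset.sum_mul]
  apply Finset.sum_congr rfl
  intro a _
  rw [Fin.prod_univ_succ]
  simp only [Fin.cons_zero, Fin.cons_succ]
  ring

lemma EE_mul_left {n : ℕ} (g : Fin n → ℝ) (r : ℝ) (F : Col n κ → ℝ) :
    EE g (fun x => r * F x) = r * EE g F := by
  unfold EE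
  rw [Finset.mul_sum]
  apply Finset.sum_congr rfl
  intro x _
  ring

lemma swap_sum {n : ℕ} (A : Option κ → ℝ) (B : Col n κ → ℝ) (Y : Option κ → Col n κ → ℝ) :
    ∑ c : Option κ, A c * ∑ D : Col n κ, B D * (Y c D) ^ 2 =
      ∑ D : Col n κ, B D * ∑ c : Option κ, A c * (Y c D) ^ 2 := by
  simp only [Finset.mul_sum]
  rw [Finset.sum_comm]
  apply Finset.sum_congr rfl
  intro D _
  apply Finset.sum_congr rfl
  intro c _
  ring

lemma beta_cons {n : ℕ} (β : Fin (n + 1) → Option κ → ℝ) (y : Col (n + 1) κ → ℝ) :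
    ∑ D : Col (n + 1) κ, (∏ i, β i (D i)) * (y D) ^ 2 =
      ∑ D : Col n κ, (∏ i, β i.succ (D i)) * ∑ a : Option κ, β 0 a *
        (y (Fin.cons a D : Fin (n + 1) → Option κ)) ^ 2 := by
  rw [sum_cons, Finset.sum_comm]
  apply Finset.sum_congr rfl
  intro D _
  rw [Finset.mul_sum]
  apply Finset.sum_congr rfl
  intro a _
  rw [Fin.prod_univ_succ]
  simp only [Fin.cons_zero, Fin.cons_succ]
  ring

end TA

open TA

variable {n : ℕ} {κ : Type} [Fintype κ] [DecidableEq κ]

theorem tensor_upper (g : Fin n → ℝ) (G β : Fin n → Option κ → ℝ)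
    (hw : ∀ i (c : Option κ), 0 ≤ wt (g i) c) (hG : ∀ i c, 0 ≤ G i c) (hβ : ∀ i c, 0 ≤ β i c)
    (hloc : ∀ i (Y : Option κ → ℝ),
      ∑ c, wt (g i) c * G i c * (∑ a, psi1 (g i) a c * Y a) ^ 2 ≤ ∑ a, β i a * (Y a) ^ 2)
    (y : Col n κ → ℝ) :
    EE g (fun x => (∏ i, G i (x i)) * (VV g y x) ^ 2) ≤ ∑ D, (∏ i, β i (D i)) * (y D) ^ 2 := by
  induction n with
  | zero =>
    unfold EE VV psi
    simp
  | succ n ih =>
    have h1 : ∀ c : Option κ,
        EE (fun i => g i.succ) (fun x : Col n κ =>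
          (∏ i, G i ((Fin.cons c x : Fin (n + 1) → Option κ) i)) *
            (VV g y (Fin.cons c x : Fin (n + 1) → Option κ)) ^ 2) ≤
        G 0 c * ∑ D : Col n κ, (∏ i, β i.succ (D i)) *
          (∑ a : Option κ, psi1 (g 0) a c * y (Fin.cons a D : Fin (n + 1) → Option κ)) ^ 2 := by
      intro c
      have h2 : (fun x : Col n κ =>
          (∏ i, G i ((Fin.cons c x : Fin (n + 1) → Option κ) i)) *
            (VV g y (Fin.cons c x : Fin (n + 1) → Option κ)) ^ 2) =
          (fun x : Col n κ => G 0 c * ((∏ i, G i.succ (x i)) *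
            (VV (fun i => g i.succ) (fun D : Col n κ => ∑ a : Option κ, psi1 (g 0) a c *
              y (Fin.cons a D : Fin (n + 1) → Option κ)) x) ^ 2)) := by
        funext x
        rw [VV_cons, Fin.prod_univ_succ]
        simp only [Fin.cons_zero, Fin.cons_succ]
        ring
      rw [h2, EE_mul_left]
      apply mul_le_mul_of_nonneg_left _ (hG 0 c)
      exact ih (fun i => g i.succ) (fun i => G i.succ) (fun i => β i.succ)
        (fun i c => hw i.succ c) (fun i c => hG i.succ c) (fun i c => hβ i.succ c)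
        (fun i Y => hloc i.succ Y) _
    rw [EE_cons]
    calc _ ≤ ∑ c : Option κ, wt (g 0) c * (G 0 c * ∑ D : Col n κ, (∏ i, β i.succ (D i)) *
          (∑ a : Option κ, psi1 (g 0) a c * y (Fin.cons a D : Fin (n + 1) → Option κ)) ^ 2) := by
          apply Finset.sum_le_sum
          intro c _
          exact mul_le_mul_of_nonneg_left (h1 c) (hw 0 c)
      _ = ∑ c : Option κ, (wt (g 0) c * G 0 c) * ∑ D : Col n κ, (∏ i, β i.succ (D i)) *
          (∑ a : Option κ, psi1 (g 0) a c * y (Fin.cons a D : Fin (n + 1) → Option κ)) ^ 2 := by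
          apply Finset.sum_congr rfl
          intro c _
          ring
      _ = ∑ D : Col n κ, (∏ i, β i.succ (D i)) * ∑ c : Option κ, (wt (g 0) c * G 0 c) *
          (∑ a : Option κ, psi1 (g 0) a c * y (Fin.cons a D : Fin (n + 1) → Option κ)) ^ 2 :=
          swap_sum (fun c => wt (g 0) c * G 0 c) (fun D : Col n κ => ∏ i, β i.succ (D i))
            (fun c D => ∑ a : Option κ, psi1 (g 0) a c * y (Fin.cons a D : Fin (n + 1) → Option κ))
      _ ≤ ∑ D : Col n κ, (∏ i, β i.succ (D i)) * ∑ a : Option κ, β 0 a *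
          (y (Fin.cons a D : Fin (n + 1) → Option κ)) ^ 2 := by
          apply Finset.sum_le_sum
          intro D _
          apply mul_le_mul_of_nonneg_left _ (Finset.prod_nonneg (fun i _ => hβ i.succ _))
          exact hloc 0 (fun a => y (Fin.cons a D : Fin (n + 1) → Option κ))
      _ = _ := (beta_cons β y).symm

theorem tensor_lower (g : Fin n → ℝ) (β : Fin n → Option κ → ℝ)
    (hw : ∀ i (c : Option κ), 0 ≤ wt (g i) c) (hβ : ∀ i c, 0 ≤ β i c)
    (hloc : ∀ i (Y : Option κ → ℝ),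
      ∑ a, β i a * (Y a) ^ 2 ≤ ∑ c, wt (g i) c * (∑ a, psi1 (g i) a c * Y a) ^ 2)
    (y : Col n κ → ℝ) :
    ∑ D, (∏ i, β i (D i)) * (y D) ^ 2 ≤ EE g (fun x => (VV g y x) ^ 2) := by
  induction n with
  | zero =>
    unfold EE VV psi
    simp
  | succ n ih =>
    have h1 : ∀ c : Option κ,
        ∑ D : Col n κ, (∏ i, β i.succ (D i)) *
          (∑ a : Option κ, psi1 (g 0) a c * y (Fin.cons a D : Fin (n + 1) → Option κ)) ^ 2 ≤
        EE (fun i => g i.succ) (fun x : Col n κ =>
            (VV g y (Fin.cons c x : Fin (n + 1) → Option κ)) ^ 2) := by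
      intro c
      have h2 : (fun x : Col n κ => (VV g y (Fin.cons c x : Fin (n + 1) → Option κ)) ^ 2) =
          (fun x : Col n κ =>
            (VV (fun i => g i.succ) (fun D : Col n κ => ∑ a : Option κ, psi1 (g 0) a c *
              y (Fin.cons a D : Fin (n + 1) → Option κ)) x) ^ 2) := by
        funext x
        rw [VV_cons]
      rw [h2]
      exact ih (fun i => g i.succ) (fun i => β i.succ)
        (fun i c => hw i.succ c) (fun i c => hβ i.succ c)
        (fun i Y => hloc i.succ Y) _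
    rw [EE_cons, beta_cons]
    calc ∑ D : Col n κ, (∏ i, β i.succ (D i)) * ∑ a : Option κ, β 0 a *
          (y (Fin.cons a D : Fin (n + 1) → Option κ)) ^ 2
        ≤ ∑ D : Col n κ, (∏ i, β i.succ (D i)) * ∑ c : Option κ, wt (g 0) c *
          (∑ a : Option κ, psi1 (g 0) a c * y (Fin.cons a D : Fin (n + 1) → Option κ)) ^ 2 := by
          apply Finset.sum_le_sum
          intro D _
          apply mul_le_mul_of_nonneg_left _ (Finset.prod_nonneg (fun i _ => hβ i.succ _))
          exact hloc 0 (fun a => y (Fin.cons a D : Fin (n + 1) → Option κ))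
      _ = ∑ c : Option κ, wt (g 0) c * ∑ D : Col n κ, (∏ i, β i.succ (D i)) *
          (∑ a : Option κ, psi1 (g 0) a c * y (Fin.cons a D : Fin (n + 1) → Option κ)) ^ 2 :=
          (swap_sum (fun c => wt (g 0) c) (fun D : Col n κ => ∏ i, β i.succ (D i))
            (fun c D => ∑ a : Option κ, psi1 (g 0) a c * y (Fin.cons a D : Fin (n + 1) → Option κ))).symm
      _ ≤ _ := by
          apply Finset.sum_le_sum
          intro c _
          exact mul_le_mul_of_nonneg_left (h1 c) (hw 0 c)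

end Pool.Agent.H50.SC
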