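import Pool.Agent.H50.SC.Defs

/-! # The covering sieve, task B (local quadratic forms), by helper818 -/

set_option autoImplicit false
set_option linter.unusedVariables false

namespace Pool.Agent.H50.SC

open Finset

variable {n : ℕ} {κ : Type} [Fintype κ] [DecidableEq κ]

lemma inner_none (g : ℝ) (Y : Option κ → ℝ) :
    ∑ a, psi1 g a (none : Option κ) * Y a = Y none - g * ∑ k, Y (some k) := by
  rw [Fintype.sum_option]
  simp only [psi1, reduceCtorEq, if_false, zero_sub, one_mul]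
  rw [mul_sum, sub_eq_add_neg, ← sum_neg_distrib]
  congr 1
  exact sum_congr rfl fun k _ => by ring

lemma inner_some (g : ℝ) (Y : Option κ → ℝ) (l : κ) :
    ∑ a, psi1 g a (some l) * Y a = (Y none - g * ∑ k, Y (some k)) + Y (some l) := by
  rw [Fintype.sum_option]
  simp only [psi1, one_mul, Option.some.injEq]
  have h : ∑ k, ((if l = k then (1 : ℝ) else 0) - g) * Y (some k) =
      Y (some l) - g * ∑ k, Y (some k) := by
    simp only [sub_mul, sum_sub_distrib, ite_mul, one_mul, zero_mul, sum_ite_eq, mem_univ, if_true,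
      mul_sum]
  rw [h]
  ring

theorem local_id (g : ℝ) (Y : Option κ → ℝ) :
    ∑ c, wt g c * (∑ a, psi1 g a c * Y a) ^ 2 =
      (Y none) ^ 2 + g * ∑ k, (Y (some k)) ^ 2 - g ^ 2 * (∑ k, Y (some k)) ^ 2 := by
  rw [Fintype.sum_option, inner_none]
  simp only [inner_some, wt]
  set S := ∑ k, Y (some k) with hS
  set A := Y none - g * S with hA
  have h1 : ∑ l, g * (A + Y (some l)) ^ 2 =
      g * ((Fintype.card κ : ℝ) * A ^ 2 + 2 * A * S + ∑ l, (Y (some l)) ^ 2) := by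
    rw [← mul_sum]
    congr 1
    have : ∀ l, (A + Y (some l)) ^ 2 = A ^ 2 + 2 * A * Y (some l) + (Y (some l)) ^ 2 := by
      intro l; ring
    simp only [this, sum_add_distrib, ← mul_sum, sum_const, card_univ, nsmul_eq_mul]
    rw [hS]
  rw [h1]
  have h2 : Y none = A + g * S := by rw [hA]; ring
  rw [h2]
  ring

lemma sum_nu1 (g : ℝ) (Y : Option κ → ℝ) :
    ∑ a, nu1 g a * (Y a) ^ 2 = (Y none) ^ 2 + g * ∑ k, (Y (some k)) ^ 2 := by
  rw [Fintype.sum_option]
  simp only [nu1, one_mul, mul_sum]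

theorem local_upper (g : ℝ) (hg : 0 ≤ g) (Y : Option κ → ℝ) :
    ∑ c, wt g c * (∑ a, psi1 g a c * Y a) ^ 2 ≤ ∑ a, nu1 g a * (Y a) ^ 2 := by
  rw [local_id, sum_nu1]
  have : 0 ≤ g ^ 2 * (∑ k, Y (some k)) ^ 2 := by positivity
  linarith

theorem local_lower (g : ℝ) (hg : 0 ≤ g) (Y : Option κ → ℝ) :
    ∑ a, nu1 g a * nu1 (1 - (Fintype.card κ : ℝ) * g) a * (Y a) ^ 2 ≤
      ∑ c, wt g c * (∑ a, psi1 g a c * Y a) ^ 2 := by
  rw [local_id, Fintype.sum_option]
  simp only [nu1, one_mul]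
  have h1 : ∑ k, g * (1 - (Fintype.card κ : ℝ) * g) * (Y (some k)) ^ 2 =
      g * ∑ k, (Y (some k)) ^ 2 - g ^ 2 * ((Fintype.card κ : ℝ) * ∑ k, (Y (some k)) ^ 2) := by
    rw [← mul_sum]
    ring
  rw [h1]
  have h2 : (∑ k, Y (some k)) ^ 2 ≤ (Fintype.card κ : ℝ) * ∑ k, (Y (some k)) ^ 2 := by
    have := sq_sum_le_card_mul_sum_sq (s := (univ : Finset κ)) (f := fun k => Y (some k))
    rwa [card_univ] at this
  have h3 : g ^ 2 * (∑ k, Y (some k)) ^ 2 ≤
      g ^ 2 * ((Fintype.card κ : ℝ) * ∑ k, (Y (some k)) ^ 2) := by gcongr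
  linarith

theorem local_wt (g t : ℝ) (hg : 0 ≤ g) (ht : 0 ≤ t) (htg : 3 * t * g ≤ 1) (k₀ : κ)
    (Y : Option κ → ℝ) :
    ∑ c, wt g c * (if c = some k₀ then 1 + t else 1) * (∑ a, psi1 g a c * Y a) ^ 2 ≤
      ∑ a, bet g t k₀ a * (Y a) ^ 2 := by
  set S := ∑ k, Y (some k) with hS
  have hsplit : ∑ c, wt g c * (if c = some k₀ then 1 + t else 1) * (∑ a, psi1 g a c * Y a) ^ 2 =
      (∑ c, wt g c * (∑ a, psi1 g a c * Y a) ^ 2) +
        g * t * ((Y none - g * S) + Y (some k₀)) ^ 2 := by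
    have h1 : ∀ c : Option κ, wt g c * (if c = some k₀ then 1 + t else 1) *
        (∑ a, psi1 g a c * Y a) ^ 2 = wt g c * (∑ a, psi1 g a c * Y a) ^ 2 +
          (if c = some k₀ then t * wt g c * (∑ a, psi1 g a c * Y a) ^ 2 else 0) := by
      intro c
      split_ifs
      · ring
      · ring
    rw [sum_congr rfl (fun c _ => h1 c), sum_add_distrib, sum_ite_eq' univ (some k₀),
      if_pos (mem_univ _), inner_some]
    simp only [wt]
    ring
  have hbet : ∑ a, bet g t k₀ a * (Y a) ^ 2 = (1 + 3 * t * g) * (Y none) ^ 2 +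
      g * ∑ k, (Y (some k)) ^ 2 + 3 * t * g * (Y (some k₀)) ^ 2 := by
    rw [Fintype.sum_option]
    simp only [bet]
    have h1 : ∀ k : κ, (if k = k₀ then (1 + 3 * t) * g else g) * (Y (some k)) ^ 2 =
        g * (Y (some k)) ^ 2 + (if k = k₀ then 3 * t * g * (Y (some k)) ^ 2 else 0) := by
      intro k
      split_ifs
      · ring
      · ring
    rw [sum_congr rfl (fun k _ => h1 k), sum_add_distrib, sum_ite_eq' univ k₀,
      if_pos (mem_univ _), ← mul_sum]
    ring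
  rw [hsplit, hbet, local_id, ← hS]
  have h3 : ((Y none - g * S) + Y (some k₀)) ^ 2 ≤
      3 * ((Y none) ^ 2 + (Y (some k₀)) ^ 2 + g ^ 2 * S ^ 2) := by
    nlinarith [sq_nonneg (Y none + g * S), sq_nonneg (Y none - Y (some k₀)),
      sq_nonneg (g * S + Y (some k₀))]
  have h4 : g * t * ((Y none - g * S) + Y (some k₀)) ^ 2 ≤
      g * t * (3 * ((Y none) ^ 2 + (Y (some k₀)) ^ 2 + g ^ 2 * S ^ 2)) := by gcongr
  have h5 : g * t * 3 * (g ^ 2 * S ^ 2) ≤ 1 * (g ^ 2 * S ^ 2) := by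
    apply mul_le_mul_of_nonneg_right _ (by positivity)
    linarith
  nlinarith

end Pool.Agent.H50.SC
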