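import Pool.Agent.H50.SC.Defs

set_option autoImplicit false

/-! # Task H1: closure properties of the class `Lv` -/

namespace Pool.Agent.H50.SC

open Finset

variable {n : ℕ} {κ : Type} [Fintype κ] [DecidableEq κ]

theorem qq_none (p : Fin n → ℝ) : qq p (fun _ => none : Col n κ) = 1 := by
  simp [qq, nu1]

theorem one_le_nu1 {p : ℝ} (hp : 1 ≤ p) (c : Option κ) : 1 ≤ nu1 p c := by
  cases c
  · exact le_refl _
  · exact hp

theorem one_le_qq {p : Fin n → ℝ} (hp : ∀ i, 1 ≤ p i) (D : Col n κ) : 1 ≤ qq p D := by
  unfold qq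
  have h := Finset.prod_le_prod (s := (univ : Finset (Fin n))) (f := fun _ => (1 : ℝ))
    (g := fun i => nu1 (p i) (D i)) (fun i _ => zero_le_one) (fun i _ => one_le_nu1 (hp i) _)
  simpa using h

theorem Lv_const (p : Fin n → ℝ) (c : ℝ) : Lv p 1 |c| (fun _ : Col n κ => c) := by
  refine ⟨fun D => if D = (fun _ => none) then c else 0, fun x => ?_, ?_, fun D hD => ?_⟩
  · rw [Finset.sum_eq_single (fun _ => none : Col n κ)]
    · simp [ind]
    · intro D _ hD
      simp [hD]
    · intro h
      exact absurd (mem_univ _) h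
  · rw [Finset.sum_eq_single (fun _ => none : Col n κ)]
    · simp
    · intro D _ hD
      simp [hD]
    · intro h
      exact absurd (mem_univ _) h
  · have h : D = (fun _ => none) := by
      by_contra h
      exact hD (if_neg h)
    subst h
    rw [qq_none]

theorem Lv_mono {p : Fin n → ℝ} {Q B Q' B' : ℝ} {F : Col n κ → ℝ} (hQ : Q ≤ Q') (hB : B ≤ B')
    (hF : Lv p Q B F) : Lv p Q' B' F := by
  obtain ⟨f, h1, h2, h3⟩ := hF
  exact ⟨f, h1, h2.trans hB, fun D hD => (h3 D hD).trans hQ⟩

theorem Lv_sub {p : Fin n → ℝ} {Q B B' : ℝ} {F G : Col n κ → ℝ} (hF : Lv p Q B F)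
    (hG : Lv p Q B' G) : Lv p Q (B + B') (fun x => F x - G x) := by
  obtain ⟨f, h1, h2, h3⟩ := hF
  obtain ⟨f', h1', h2', h3'⟩ := hG
  refine ⟨fun D => f D - f' D, fun x => ?_, ?_, fun D hD => ?_⟩
  · change F x - G x = _
    rw [h1, h1', ← Finset.sum_sub_distrib]
    exact Finset.sum_congr rfl fun D _ => by ring
  · refine le_trans ?_ (add_le_add h2 h2')
    rw [← Finset.sum_add_distrib]
    exact Finset.sum_le_sum fun D _ => abs_sub _ _
  · by_cases h : f D = 0
    · exact h3' D fun h' => hD (by simp only [h, h', sub_zero])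
    · exact h3 D h

theorem Lv_add {p : Fin n → ℝ} {Q B B' : ℝ} {F G : Col n κ → ℝ} (hF : Lv p Q B F)
    (hG : Lv p Q B' G) : Lv p Q (B + B') (fun x => F x + G x) := by
  obtain ⟨f, h1, h2, h3⟩ := hF
  obtain ⟨f', h1', h2', h3'⟩ := hG
  refine ⟨fun D => f D + f' D, fun x => ?_, ?_, fun D hD => ?_⟩
  · change F x + G x = _
    rw [h1, h1', ← Finset.sum_add_distrib]
    exact Finset.sum_congr rfl fun D _ => by ring
  · refine le_trans ?_ (add_le_add h2 h2')
    rw [← Finset.sum_add_distrib]
    exact Finset.sum_le_sum fun D _ => abs_add_le _ _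
  · by_cases h : f D = 0
    · exact h3' D fun h' => hD (by simp only [h, h', add_zero])
    · exact h3 D h

theorem Lv_zero (p : Fin n → ℝ) (Q : ℝ) : Lv p Q 0 (fun _ : Col n κ => 0) := by
  refine ⟨fun _ => 0, fun x => by simp, by simp, fun D hD => absurd rfl hD⟩

theorem Lv_sum {p : Fin n → ℝ} {Q : ℝ} {ι : Type} (S : Finset ι) (B : ι → ℝ)
    (F : ι → Col n κ → ℝ) (hF : ∀ j ∈ S, Lv p Q (B j) (F j)) :
    Lv p Q (∑ j ∈ S, B j) (fun x => ∑ j ∈ S, F j x) := by
  classical
  induction S using Finset.induction_on with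
  | empty => simpa using Lv_zero (κ := κ) p Q
  | insert a S ha ih =>
    have h1 := hF a (Finset.mem_insert_self a S)
    have h2 := ih fun j hj => hF j (Finset.mem_insert_of_mem hj)
    have h3 := Lv_add h1 h2
    rw [Finset.sum_insert ha]
    have h4 : (fun x => ∑ j ∈ insert a S, F j x) = fun x => F a x + ∑ j ∈ S, F j x := by
      funext x
      rw [Finset.sum_insert ha]
    rw [h4]
    exact h3

/-- union of two assignments -/
def un (D D' : Col n κ) : Col n κ := fun i => match D i with
  | none => D' i
  | some k => some k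

/-- compatible assignments -/
def Cmp (D D' : Col n κ) : Prop := ∀ i, D i ≠ none → D' i ≠ none → D i = D' i

theorem ind_mul (D D' x : Col n κ) [Decidable (Cmp D D')] :
    ind D x * ind D' x = if Cmp D D' then ind (un D D') x else 0 := by
  by_cases h1 : ∀ i, D i ≠ none → x i = D i
  · by_cases h2 : ∀ i, D' i ≠ none → x i = D' i
    · have hc : Cmp D D' := fun i hi hi' => (h1 i hi).symm.trans (h2 i hi')
      have h3 : ∀ i, un D D' i ≠ none → x i = un D D' i := by
        intro i hi
        unfold un at hi ⊢
        cases hD : D i with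
        | none =>
          rw [hD] at hi
          exact h2 i hi
        | some k =>
          have := h1 i (by rw [hD]; simp)
          rw [hD] at this
          exact this
      rw [if_pos hc]
      unfold ind
      rw [if_pos h1, if_pos h2, if_pos h3, one_mul]
    · have e : ind D x * ind D' x = 0 := by
        unfold ind
        rw [if_neg h2, mul_zero]
      rw [e]
      split_ifs with hc
      · symm
        unfold ind
        rw [if_neg]
        intro h3
        apply h2
        intro i hi
        cases hD : D i with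
        | none =>
          have := h3 i (by unfold un; rw [hD]; exact hi)
          unfold un at this
          rw [hD] at this
          exact this
        | some k =>
          have h4 := hc i (by rw [hD]; simp) hi
          rw [← h4]
          exact h1 i (by rw [hD]; simp)
      · rfl
  · have e : ind D x * ind D' x = 0 := by
      unfold ind
      rw [if_neg h1, zero_mul]
    rw [e]
    split_ifs with hc
    · symm
      unfold ind
      rw [if_neg]
      intro h3
      apply h1
      intro i hi
      cases hD : D i with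
      | none => exact absurd hD hi
      | some k =>
        have := h3 i (by unfold un; rw [hD]; simp)
        unfold un at this
        rw [hD] at this
        exact this
    · rfl

theorem qq_un {p : Fin n → ℝ} (hp : ∀ i, 1 ≤ p i) (D D' : Col n κ) :
    qq p (un D D') ≤ qq p D * qq p D' := by
  unfold qq
  rw [← Finset.prod_mul_distrib]
  apply Finset.prod_le_prod
  · intro i _
    exact zero_le_one.trans (one_le_nu1 (hp i) _)
  · intro i _
    unfold un
    cases hD : D i with
    | none =>
      simp only
      change nu1 (p i) (D' i) ≤ 1 * nu1 (p i) (D' i)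
      rw [one_mul]
    | some k =>
      simp only
      have h1 := one_le_nu1 (hp i) (D' i)
      have h2 := one_le_nu1 (hp i) (some k)
      nlinarith

theorem Lv_mul {p : Fin n → ℝ} (hp : ∀ i, 1 ≤ p i) {Q B Q' B' : ℝ} {F G : Col n κ → ℝ}
    (hF : Lv p Q B F) (hG : Lv p Q' B' G) : Lv p (Q * Q') (B * B') (fun x => F x * G x) := by
  classical
  obtain ⟨f, h1, h2, h3⟩ := hF
  obtain ⟨f', h1', h2', h3'⟩ := hG
  have hB : 0 ≤ B := (Finset.sum_nonneg fun D _ => abs_nonneg (f D)).trans h2
  refine ⟨fun E => ∑ P : Col n κ × Col n κ, if Cmp P.1 P.2 ∧ un P.1 P.2 = E then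
    f P.1 * f' P.2 else 0, fun x => ?_, ?_, fun E hE => ?_⟩
  · have e1 : ∑ E : Col n κ, (∑ P : Col n κ × Col n κ, if Cmp P.1 P.2 ∧ un P.1 P.2 = E then
        f P.1 * f' P.2 else 0) * ind E x =
        ∑ P : Col n κ × Col n κ, ∑ E : Col n κ, (if Cmp P.1 P.2 ∧ un P.1 P.2 = E then
        f P.1 * f' P.2 else 0) * ind E x := by
      simp_rw [Finset.sum_mul]
      exact Finset.sum_comm
    rw [e1]
    change F x * G x = _
    rw [h1, h1', Finset.sum_mul_sum, ← Finset.univ_product_univ, Finset.sum_product]
    refine Finset.sum_congr rfl fun D _ => Finset.sum_congr rfl fun D' _ => ?_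
    have e2 : f D * ind D x * (f' D' * ind D' x) = f D * f' D' * (ind D x * ind D' x) := by ring
    rw [e2, ind_mul]
    by_cases hc : Cmp D D'
    · rw [if_pos hc, Finset.sum_eq_single (un D D')]
      · rw [if_pos ⟨hc, rfl⟩]
      · intro E _ hE
        rw [if_neg fun h => hE h.2.symm, zero_mul]
      · intro h
        exact absurd (mem_univ _) h
    · rw [if_neg hc, mul_zero]
      symm
      apply Finset.sum_eq_zero
      intro E _
      rw [if_neg fun h => hc h.1, zero_mul]
  · have e1 : ∀ E : Col n κ, |∑ P : Col n κ × Col n κ, if Cmp P.1 P.2 ∧ un P.1 P.2 = E then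
        f P.1 * f' P.2 else 0| ≤ ∑ P : Col n κ × Col n κ, if un P.1 P.2 = E then
        |f P.1| * |f' P.2| else 0 := by
      intro E
      refine (Finset.abs_sum_le_sum_abs _ _).trans (Finset.sum_le_sum fun P _ => ?_)
      by_cases h : un P.1 P.2 = E
      · by_cases hc : Cmp P.1 P.2
        · rw [if_pos ⟨hc, h⟩, if_pos h, abs_mul]
        · rw [if_neg fun h' => hc h'.1, if_pos h, abs_zero]
          positivity
      · rw [if_neg fun h' => h h'.2, if_neg h, abs_zero]
    refine (Finset.sum_le_sum fun E _ => e1 E).trans ?_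
    rw [Finset.sum_comm]
    have e2 : ∀ P : Col n κ × Col n κ, (∑ E : Col n κ, if un P.1 P.2 = E then
        |f P.1| * |f' P.2| else 0) = |f P.1| * |f' P.2| := by
      intro P
      rw [Finset.sum_ite_eq]
      simp
    simp_rw [e2]
    rw [← Finset.univ_product_univ, Finset.sum_product]
    change ∑ D, ∑ D', |f D| * |f' D'| ≤ B * B'
    rw [← Finset.sum_mul_sum]
    exact mul_le_mul h2 h2' (Finset.sum_nonneg fun D _ => abs_nonneg (f' D)) hB
  · obtain ⟨P, _, hP⟩ := Finset.exists_ne_zero_of_sum_ne_zero hE
    have hP1 : Cmp P.1 P.2 ∧ un P.1 P.2 = E := by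
      by_contra h
      exact hP (if_neg h)
    rw [if_pos hP1] at hP
    have a1 := h3 P.1 (left_ne_zero_of_mul hP)
    have a2 := h3' P.2 (right_ne_zero_of_mul hP)
    rw [← hP1.2]
    refine (qq_un hp _ _).trans ?_
    have b1 := one_le_qq hp P.1
    have b2 := one_le_qq hp P.2
    exact mul_le_mul a1 a2 (by linarith) (by linarith)

end Pool.Agent.H50.SC
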