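import Pool.Agent.H50.SC.Defs

set_option autoImplicit false
set_option linter.unusedSectionVars false

/-! # Task H3 (helper238): transfer to the actual set -/

namespace Pool.Agent.H50.SC

open Finset

variable {n : ℕ} {κ : Type} [Fintype κ] [DecidableEq κ]

theorem ind_eq_prod (D x : Col n κ) :
    ind D x = ∏ i, (if D i ≠ none → x i = D i then (1 : ℝ) else 0) := by
  unfold ind
  split_ifs with h
  · symm
    apply Finset.prod_eq_one
    intro i _
    rw [if_pos (h i)]
  · push Not at h
    obtain ⟨i, hi1, hi2⟩ := h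
    symm
    apply Finset.prod_eq_zero (Finset.mem_univ i)
    rw [if_neg]
    intro h'
    exact hi2 (h' hi1)

theorem sum_wt_ind1 (g : ℝ) (a : Option κ) :
    ∑ c, wt g c * (if a ≠ none → c = a then (1 : ℝ) else 0) = nu1 g a := by
  cases a with
  | none =>
    simp [Fintype.sum_option, wt, nu1]
  | some k =>
    simp [Fintype.sum_option, wt, nu1]

theorem EE_ind (g : Fin n → ℝ) (D : Col n κ) : EE g (fun x => ind D x) = nu g D := by
  unfold EE nu
  have h1 : ∀ x : Col n κ, (∏ i, wt (g i) (x i)) * ind D x =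
      ∏ i, (wt (g i) (x i) * (if D i ≠ none → x i = D i then (1 : ℝ) else 0)) := by
    intro x
    rw [ind_eq_prod, Finset.prod_mul_distrib]
  rw [Finset.sum_congr rfl (fun x _ => h1 x)]
  have h2 := Finset.prod_univ_sum (fun _ : Fin n => (Finset.univ : Finset (Option κ)))
    (fun i c => wt (g i) c * (if D i ≠ none → c = D i then (1 : ℝ) else 0))
  rw [Fintype.piFinset_univ] at h2
  rw [← h2]
  apply Finset.prod_congr rfl
  intro i _
  exact sum_wt_ind1 (g i) (D i)

theorem transfer {α : Type} [DecidableEq α] (𝒜 : Finset α) (col : α → Col n κ) (p g : Fin n → ℝ)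
    (N Err Q B : ℝ) (hErr : 0 ≤ Err)
    (hcnt : ∀ D : Col n κ, qq p D ≤ Q →
      |((𝒜.filter (fun a => ∀ i, D i ≠ none → col a i = D i)).card : ℝ) - N * nu g D| ≤ Err)
    (F : Col n κ → ℝ) (hF : Lv p Q B F) :
    |∑ a ∈ 𝒜, F (col a) - N * EE g F| ≤ Err * B := by
  obtain ⟨f, hf1, hf2, hf3⟩ := hF
  have h1 : ∑ a ∈ 𝒜, F (col a) =
      ∑ D, f D * ((𝒜.filter (fun a => ∀ i, D i ≠ none → col a i = D i)).card : ℝ) := by
    simp_rw [hf1]
    rw [Finset.sum_comm]
    apply Finset.sum_congr rfl
    intro D _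
    rw [← Finset.mul_sum]
    congr 1
    unfold ind
    rw [Finset.sum_ite, Finset.sum_const_zero, add_zero, Finset.sum_const, nsmul_eq_mul, mul_one]
  have h2 : EE g F = ∑ D, f D * nu g D := by
    have h3 : EE g F = ∑ D, f D * EE g (fun x => ind D x) := by
      unfold EE
      simp_rw [hf1, Finset.mul_sum]
      rw [Finset.sum_comm]
      apply Finset.sum_congr rfl
      intro D _
      apply Finset.sum_congr rfl
      intro x _
      ring
    rw [h3]
    apply Finset.sum_congr rfl
    intro D _
    rw [EE_ind]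
  rw [h1, h2, Finset.mul_sum, ← Finset.sum_sub_distrib]
  calc |∑ D, (f D * ((𝒜.filter (fun a => ∀ i, D i ≠ none → col a i = D i)).card : ℝ) -
        N * (f D * nu g D))|
      ≤ ∑ D, |f D * ((𝒜.filter (fun a => ∀ i, D i ≠ none → col a i = D i)).card : ℝ) -
        N * (f D * nu g D)| := Finset.abs_sum_le_sum_abs _ _
    _ ≤ ∑ D, |f D| * Err := by
        apply Finset.sum_le_sum
        intro D _
        have h4 : f D * ((𝒜.filter (fun a => ∀ i, D i ≠ none → col a i = D i)).card : ℝ) -
            N * (f D * nu g D) =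
            f D * (((𝒜.filter (fun a => ∀ i, D i ≠ none → col a i = D i)).card : ℝ) -
              N * nu g D) := by ring
        rw [h4, abs_mul]
        by_cases hD : f D = 0
        · simp [hD]
        · exact mul_le_mul_of_nonneg_left (hcnt D (hf3 D hD)) (abs_nonneg _)
    _ = (∑ D, |f D|) * Err := by rw [Finset.sum_mul]
    _ ≤ B * Err := mul_le_mul_of_nonneg_right hf2 hErr
    _ = Err * B := mul_comm _ _

end Pool.Agent.H50.SC
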