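import Pool.Agent.H50.SC.Basic
import Pool.Agent.H50.SC.A
import Pool.Agent.H50.SC.B
import Pool.Agent.H50.SC.C
import Pool.Agent.H50.SC.D
import Pool.Agent.H50.SC.E
import Pool.Agent.H50.SC.F
import Pool.Agent.H50.SC.G
import Pool.Agent.H50.SC.H1
import Pool.Agent.H50.SC.H2
import Pool.Agent.H50.SC.H3
import Pool.Agent.H50.SC.I

set_option autoImplicit false
set_option linter.unusedSectionVars false

/-! # The abstract covering sieve -/

namespace Pool.Agent.H50.SC
open Finset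

variable {n : ℕ} {κ : Type} [Fintype κ] [DecidableEq κ]

lemma prod_ge_one_sub_sum {ι : Type} (s : Finset ι) (a : ι → ℝ) (h0 : ∀ i, 0 ≤ a i)
    (h1 : ∀ i, a i ≤ 1) : 1 - ∑ i ∈ s, a i ≤ ∏ i ∈ s, (1 - a i) := by
  classical
  induction s using Finset.induction_on with
  | empty => simp
  | insert i s hi ih =>
    rw [Finset.sum_insert hi, Finset.prod_insert hi]
    have hp : ∏ j ∈ s, (1 - a j) ≤ 1 :=
      Finset.prod_le_one (fun j _ => by linarith [h1 j]) (fun j _ => by linarith [h0 j])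
    have hp0 : 0 ≤ ∏ j ∈ s, (1 - a j) := Finset.prod_nonneg (fun j _ => by linarith [h1 j])
    nlinarith [h0 i, h1 i]

lemma wt_nonneg {g : ℝ} (hg : 0 ≤ g) (hu : (Fintype.card κ : ℝ) * g ≤ 1) (c : Option κ) :
    0 ≤ wt g c := by
  cases c with
  | none => simp only [wt]; linarith
  | some k => simpa only [wt] using hg

lemma EE_mono {g : Fin n → ℝ} (hw : ∀ i (c : Option κ), 0 ≤ wt (g i) c) {F G : Col n κ → ℝ}
    (h : ∀ x, F x ≤ G x) : EE g F ≤ EE g G := by
  unfold EE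
  apply Finset.sum_le_sum
  intro x _
  exact mul_le_mul_of_nonneg_left (h x) (Finset.prod_nonneg (fun i _ => hw i _))

lemma EE_sub (g : Fin n → ℝ) (F G : Col n κ → ℝ) :
    EE g (fun x => F x - G x) = EE g F - EE g G := by
  unfold EE
  rw [← Finset.sum_sub_distrib]
  apply Finset.sum_congr rfl
  intro x _
  ring

lemma EE_add (g : Fin n → ℝ) (F G : Col n κ → ℝ) :
    EE g (fun x => F x + G x) = EE g F + EE g G := by
  unfold EE
  rw [← Finset.sum_add_distrib]
  apply Finset.sum_congr rfl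
  intro x _
  ring

lemma EE_smul (g : Fin n → ℝ) (c : ℝ) (F : Col n κ → ℝ) :
    EE g (fun x => c * F x) = c * EE g F := by
  unfold EE
  rw [Finset.mul_sum]
  apply Finset.sum_congr rfl
  intro x _
  ring

lemma EE_sum (g : Fin n → ℝ) {ι : Type} (S : Finset ι) (F : ι → Col n κ → ℝ) :
    EE g (fun x => ∑ j ∈ S, F j x) = ∑ j ∈ S, EE g (F j) := by
  unfold EE
  rw [Finset.sum_comm]
  apply Finset.sum_congr rfl
  intro x _
  rw [Finset.mul_sum]

lemma nu_nonneg {g : Fin n → ℝ} (hg : ∀ i, 0 < g i) (D : Col n κ) : 0 ≤ nu g D := by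
  unfold nu
  rw [prod_nu1]
  exact Finset.prod_nonneg (fun i _ => (hg i).le)

lemma al_abs_le {h : Finset (Fin n) → ℝ} (h0 : ∀ s, 0 ≤ h s) (h1 : ∀ s, h s ≤ 1)
    (s : Finset (Fin n)) : |al h s| ≤ 1 := by
  unfold al
  split_ifs with hs
  · simp
  · rw [abs_neg, abs_mul, abs_pow, abs_neg, abs_one, one_pow, one_mul, abs_of_nonneg (h0 s)]
    exact h1 s

lemma yy_abs_le {h : Finset (Fin n) → ℝ} (h0 : ∀ s, 0 ≤ h s) (h1 : ∀ s, h s ≤ 1)
    (D : Col n κ) : |yy h D| ≤ 1 := by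
  unfold yy
  rw [Finset.abs_prod]
  exact Finset.prod_le_one (fun k _ => abs_nonneg _) (fun k _ => al_abs_le h0 h1 _)

lemma Zs_ge_one {p g : Fin n → ℝ} {h : Finset (Fin n) → ℝ} {z K : ℝ} (H : Hyp p g h z K) :
    1 ≤ Zs κ g h := by
  unfold Zs
  have h1 : (yy h (fun _ => none : Col n κ)) ^ 2 * nu g (fun _ => none : Col n κ) = 1 := by
    have e1 : yy h (fun _ => none : Col n κ) = 1 := by
      unfold yy
      apply Finset.prod_eq_one
      intro k _
      have : fib (fun _ => none : Col n κ) k = ∅ := by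
        unfold fib
        simp
      rw [this]
      simp [al]
    have e2 : nu g (fun _ => none : Col n κ) = 1 := by
      unfold nu
      apply Finset.prod_eq_one
      intro i _
      simp [nu1]
    rw [e1, e2]; norm_num
  rw [← h1]
  exact Finset.single_le_sum (f := fun D : Col n κ => (yy h D) ^ 2 * nu g D)
    (fun D _ => mul_nonneg (sq_nonneg _) (nu_nonneg H.g0 D)) (Finset.mem_univ _)

section
variable {p g : Fin n → ℝ} {h : Finset (Fin n) → ℝ} {z K : ℝ}

/-- lower bound of the second moment -/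
theorem second_lower (H : Hyp p g h z K) (Q δ T : ℝ)
    (hug : ∀ i, (Fintype.card κ : ℝ) * g i ≤ 1)
    (hδ : ∀ D : Col n κ, qq p D ≤ Q → 2 * ∑ i with D i ≠ none, g i ≤ δ)
    (hug4 : (Fintype.card κ : ℝ) * δ ≤ 1 / 4) (hQ0 : 0 < Q)
    (hT : ∑ D : Col n κ with Q / z < qq p D, (yy h D) ^ 2 * nu g D ≤ T)
    (hT8 : T ≤ 1 / 8 * Zs κ g h) :
    3 / 4 * Zs κ g h ≤ EE g (fun x => (VV g (yT p h Q : Col n κ → ℝ) x) ^ 2) := by
  have hw : ∀ i (c : Option κ), 0 ≤ wt (g i) c := fun i c => wt_nonneg (H.g0 i).le (hug i) c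
  have h1 := tensor_lower (κ := κ) g
    (fun i c => nu1 (g i) c * nu1 (1 - (Fintype.card κ : ℝ) * g i) c) hw
    (by
      intro i c
      cases c with
      | none => simp [nu1]
      | some k =>
        simp only [nu1]
        exact mul_nonneg (H.g0 i).le (by linarith [hug i]))
    (fun i Y => local_lower (g i) (H.g0 i).le Y) (yT p h Q)
  refine le_trans ?_ h1
  have h2 : ∀ D : Col n κ, (if qq p D ≤ Q then 7 / 8 * ((yy h D) ^ 2 * nu g D) else 0) ≤
      (∏ i, nu1 (g i) (D i) * nu1 (1 - (Fintype.card κ : ℝ) * g i) (D i)) *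
        (yT p h Q D) ^ 2 := by
    intro D
    unfold yT
    split_ifs with hD
    · rw [Finset.prod_mul_distrib]
      have e1 : ∏ i, nu1 (1 - (Fintype.card κ : ℝ) * g i) (D i) =
          ∏ i ∈ supp D, (1 - (Fintype.card κ : ℝ) * g i) := prod_nu1 _ D
      rw [e1]
      have e2 : 7 / 8 ≤ ∏ i ∈ supp D, (1 - (Fintype.card κ : ℝ) * g i) := by
        refine le_trans ?_ (prod_ge_one_sub_sum (supp D) (fun i => (Fintype.card κ : ℝ) * g i)
          (fun i => mul_nonneg (Nat.cast_nonneg _) (H.g0 i).le) hug)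
        rw [← Finset.mul_sum]
        have e3 := hδ D hD
        have e4 : ∑ i ∈ supp D, g i ≤ δ / 2 := by
          unfold supp
          linarith
        have e5 : (Fintype.card κ : ℝ) * ∑ i ∈ supp D, g i ≤ (Fintype.card κ : ℝ) * (δ / 2) :=
          mul_le_mul_of_nonneg_left e4 (Nat.cast_nonneg _)
        nlinarith
      have e6 : 0 ≤ (yy h D) ^ 2 * nu g D := mul_nonneg (sq_nonneg _) (nu_nonneg H.g0 D)
      have e7 : ∏ i, nu1 (g i) (D i) = nu g D := rfl
      rw [e7]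
      nlinarith
    · simp
  refine le_trans ?_ (Finset.sum_le_sum (fun D _ => h2 D))
  rw [← Finset.sum_filter, ← Finset.mul_sum]
  have h3 : Zs κ g h = ∑ D : Col n κ with qq p D ≤ Q, (yy h D) ^ 2 * nu g D +
      ∑ D : Col n κ with ¬ qq p D ≤ Q, (yy h D) ^ 2 * nu g D := by
    unfold Zs
    rw [Finset.sum_filter_add_sum_filter_not]
  have h4 : ∑ D : Col n κ with ¬ qq p D ≤ Q, (yy h D) ^ 2 * nu g D ≤
      ∑ D : Col n κ with Q / z < qq p D, (yy h D) ^ 2 * nu g D := by
    apply Finset.sum_le_sum_of_subset_of_nonneg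
    · intro D hD
      rw [Finset.mem_filter] at hD ⊢
      refine ⟨hD.1, lt_of_le_of_lt ?_ (not_le.mp hD.2)⟩
      exact div_le_self hQ0.le H.z1.le
    · intro D _ _
      exact mul_nonneg (sq_nonneg _) (nu_nonneg H.g0 D)
  have h5 := Zs_ge_one (κ := κ) H
  linarith

/-- upper bound of the sieve majorant part -/
theorem second_upper (H : Hyp p g h z K) (Q δ t T : ℝ) (J : ℕ) (hJ : Even J) (ht : 0 < t)
    (htg : ∀ i, 3 * t * g i ≤ 1)
    (hug : ∀ i, (Fintype.card κ : ℝ) * g i ≤ 1) (hQ0 : 0 < Q)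
    (hδ : ∀ D : Col n κ, qq p D ≤ Q → 2 * ∑ i with D i ≠ none, g i ≤ δ)
    (hT : ∑ D : Col n κ with Q / z < qq p D, (yy h D) ^ 2 * nu g D ≤ T) (k : κ) :
    EE g (fun x => (VV g (yT p h Q : Col n κ → ℝ) x) ^ 2 * SS J k x) ≤
      δ ^ 2 * Zs κ g h + T + (1 / t) ^ J * (Real.exp ((2 + 6 * t) * ∑ i, g i) * Zs κ g h) := by
  have hw : ∀ i (c : Option κ), 0 ≤ wt (g i) c := fun i c => wt_nonneg (H.g0 i).le (hug i) c
  have h1 : EE g (fun x => (VV g (yT p h Q : Col n κ → ℝ) x) ^ 2 * SS J k x) ≤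
      EE g (fun x => (if ∀ i, x i ≠ some k then 1 else 0) *
        (VV g (yT p h Q : Col n κ → ℝ) x) ^ 2 +
        (1 / t) ^ J * ((∏ i, (if x i = some k then 1 + t else 1)) *
          (VV g (yT p h Q : Col n κ → ℝ) x) ^ 2)) := by
    apply EE_mono hw
    intro x
    have := mul_le_mul_of_nonneg_left (SS_upper J hJ t ht k x)
      (sq_nonneg (VV g (yT p h Q : Col n κ → ℝ) x))
    refine this.trans (le_of_eq ?_)
    ring
  refine h1.trans ?_
  rw [EE_add, EE_smul]
  have h2 : EE g (fun x => (if ∀ i, x i ≠ some k then (1:ℝ) else 0) *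
      (VV g (yT p h Q : Col n κ → ℝ) x) ^ 2) ≤ δ ^ 2 * Zs κ g h + T := by
    refine (rough_bound g (fun i => (H.g0 i).le) hw _ k).trans ?_
    refine (red_yT H Q δ hQ0 hδ k).trans ?_
    linarith
  have h3 : EE g (fun x => (∏ i, (if x i = some k then 1 + t else 1)) *
      (VV g (yT p h Q : Col n κ → ℝ) x) ^ 2) ≤
      Real.exp ((2 + 6 * t) * ∑ i, g i) * Zs κ g h := by
    refine le_trans ?_ (weighted_sum H t ht.le k)
    have h4 := tensor_upper (κ := κ) g (fun _ c => if c = some k then 1 + t else 1)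
      (fun i c => bet (g i) t k c) hw
      (by intro i c; split_ifs <;> linarith)
      (by
        intro i c
        cases c with
        | none =>
          simp only [bet]
          have := (H.g0 i).le
          positivity
        | some l =>
          simp only [bet]
          have := (H.g0 i).le
          split_ifs
          · positivity
          · exact this)
      (fun i Y => local_wt (g i) t (H.g0 i).le ht.le (htg i) k Y) (yT p h Q)
    refine h4.trans ?_
    apply Finset.sum_le_sum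
    intro D _
    apply mul_le_mul_of_nonneg_left
    · unfold yT
      split_ifs
      · exact le_rfl
      · simpa using sq_nonneg (yy h D)
    · apply Finset.prod_nonneg
      intro i _
      cases D i with
      | none =>
        simp only [bet]
        have := (H.g0 i).le
        positivity
      | some l =>
        simp only [bet]
        have := (H.g0 i).le
        split_ifs
        · positivity
        · exact this
  have h5 : (0:ℝ) ≤ (1 / t) ^ J := by positivity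
  have h6 := mul_le_mul_of_nonneg_left h3 h5
  linarith

end

theorem core {α : Type} [DecidableEq α] (𝒜 : Finset α) (col : α → Col n κ)
    {p g : Fin n → ℝ} {h : Finset (Fin n) → ℝ} {z K : ℝ} (H : Hyp p g h z K)
    (Q δ t N Err : ℝ) (J : ℕ) (hJ : Even J) (ht : 0 < t) (hN : 0 < N) (hErr : 0 ≤ Err)
    (hQz : 1 ≤ Q)
    (hpz : ∀ i, p i ≤ z) (hg1 : ∀ i, g i ≤ 1) (htg : ∀ i, 3 * t * g i ≤ 1)
    (hug : ∀ i, (Fintype.card κ : ℝ) * g i ≤ 1)
    (hδ : ∀ D : Col n κ, qq p D ≤ Q → 2 * ∑ i with D i ≠ none, g i ≤ δ)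
    (hug4 : (Fintype.card κ : ℝ) * δ ≤ 1 / 4)
    (hs : 2 * (Fintype.card κ : ℝ) * ∑ i, 1 / (p i) ^ 2 ≤ 1)
    (htail : (Fintype.card κ + 1 : ℝ) * (δ ^ 2 + Real.exp (2 * (Fintype.card κ : ℝ) * K / Real.log z
      - Real.log (Q / z) / Real.log z)) ≤ 1 / 8)
    (hmom : (Fintype.card κ : ℝ) * (1 / t) ^ J * Real.exp ((2 + 6 * t) * ∑ i, g i) ≤ 1 / 8)
    (hcnt : ∀ D : Col n κ, qq p D ≤ Q ^ 2 * z ^ J →
      |((𝒜.filter (fun a => ∀ i, D i ≠ none → col a i = D i)).card : ℝ) - N * nu g D| ≤ Err)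
    (hfin : Err * (9 * Q ^ 4 * (1 + Fintype.card κ * (n + 1) ^ J)) < N / 8) :
    ∃ a ∈ 𝒜, ∀ k, ∃ i, col a i = some k := by
  set u : ℝ := (Fintype.card κ : ℝ) with hu
  have hu0 : 0 ≤ u := Nat.cast_nonneg _
  have hQ0 : 0 < Q := by linarith
  have hz0 : 0 < z := by linarith [H.z1]
  set E : ℝ := Real.exp (2 * u * K / Real.log z - Real.log (Q / z) / Real.log z) with hE
  set Z : ℝ := Zs κ g h with hZ
  have hZ1 : 1 ≤ Z := Zs_ge_one H
  have hE0 : 0 < E := Real.exp_pos _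
  have hp1 : ∀ i, 1 ≤ p i := fun i => (H.p1 i).le
  have hT : ∑ D : Col n κ with Q / z < qq p D, (yy h D) ^ 2 * nu g D ≤ E * Z :=
    tail_bound H (Q / z) (by positivity)
  have hE8 : E ≤ 1 / 8 := by
    have : δ ^ 2 + E ≤ (u + 1) * (δ ^ 2 + E) := by nlinarith [sq_nonneg δ]
    nlinarith [sq_nonneg δ]
  have hT8 : E * Z ≤ 1 / 8 * Z := by nlinarith
  set V : Col n κ → ℝ := VV g (yT p h Q) with hV
  have hlow : 3 / 4 * Z ≤ EE g (fun x => (V x) ^ 2) :=
    second_lower H Q δ (E * Z) hug hδ hug4 hQ0 hT hT8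
  have hup : ∀ k, EE g (fun x => (V x) ^ 2 * SS J k x) ≤
      δ ^ 2 * Z + E * Z + (1 / t) ^ J * (Real.exp ((2 + 6 * t) * ∑ i, g i) * Z) := fun k =>
    second_upper H Q δ t (E * Z) J hJ ht htg hug hQ0 hδ hT k
  set F : Col n κ → ℝ := fun x => V x ^ 2 * (1 - ∑ k, SS J k x) with hF
  have hEF : Z / 2 ≤ EE g F := by
    have e1 : EE g F = EE g (fun x => (V x) ^ 2) - ∑ k, EE g (fun x => (V x) ^ 2 * SS J k x) := by
      rw [← EE_sum, ← EE_sub]
      congr 1
      funext x
      rw [hF]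
      simp only
      rw [← Finset.mul_sum]
      ring
    rw [e1]
    have e2 : ∑ k : κ, EE g (fun x => (V x) ^ 2 * SS J k x) ≤
        u * (δ ^ 2 * Z + E * Z + (1 / t) ^ J * (Real.exp ((2 + 6 * t) * ∑ i, g i) * Z)) := by
      refine (Finset.sum_le_sum (fun k _ => hup k)).trans ?_
      rw [Finset.sum_const, Finset.card_univ, nsmul_eq_mul]
    have e3 : u * (δ ^ 2 * Z + E * Z) ≤ 1 / 8 * Z := by
      have : u * (δ ^ 2 + E) ≤ 1 / 8 := by nlinarith [sq_nonneg δ]
      nlinarith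
    have e4 : u * ((1 / t) ^ J * (Real.exp ((2 + 6 * t) * ∑ i, g i) * Z)) ≤ 1 / 8 * Z := by
      nlinarith
    nlinarith
  -- level of `F`
  have hzJ : (1:ℝ) ≤ z ^ J := one_le_pow₀ H.z1.le
  have hVL : Lv p Q (3 * Q ^ 2) V := by
    refine Lv_mono le_rfl (count_assign (κ := κ) p hp1 hs Q hQ0) ?_
    refine Lv_VV p g hp1 (fun i => (H.g0 i).le) hg1 (yT p h Q) ?_ Q ?_
    · intro D
      unfold yT
      split_ifs
      · exact yy_abs_le H.h0 H.h1 D
      · simp
    · intro D hD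
      by_contra hc
      exact hD (by unfold yT; rw [if_neg hc])
  have hSL : Lv p (z ^ J) (1 + u * (n + 1) ^ J) (fun x : Col n κ => 1 - ∑ k, SS J k x) := by
    have e1 : Lv p (z ^ J) 1 (fun _ : Col n κ => (1:ℝ)) :=
      Lv_mono hzJ (by simp) (Lv_const p 1)
    have e2 := Lv_sum (p := p) (Q := z ^ J) (univ : Finset κ) (fun _ => ((n:ℝ) + 1) ^ J)
      (fun k => (SS J k : Col n κ → ℝ)) (fun k _ => Lv_SS p hp1 z hpz H.z1.le J k)
    have e3 := Lv_sub e1 e2
    refine Lv_mono le_rfl ?_ e3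
    rw [Finset.sum_const, Finset.card_univ, nsmul_eq_mul]
  have hFL : Lv p (Q ^ 2 * z ^ J) (9 * Q ^ 4 * (1 + u * (n + 1) ^ J)) F := by
    have e1 := Lv_mul hp1 (Lv_mul hp1 hVL hVL) hSL
    have e2 : F = fun x => V x * V x * (1 - ∑ k, SS J k x) := by
      rw [hF]; funext x; ring
    rw [e2]
    refine Lv_mono (le_of_eq (by ring)) (le_of_eq (by ring)) e1
  have htr := transfer 𝒜 col p g N Err _ _ hErr hcnt F hFL
  have hpos : 0 < ∑ a ∈ 𝒜, F (col a) := by
    have e1 := (abs_le.mp htr).1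
    have e2 : N / 2 ≤ N * EE g F := by nlinarith
    linarith
  obtain ⟨a, ha, hFa⟩ : ∃ a ∈ 𝒜, 0 < F (col a) := by
    by_contra hc
    push Not at hc
    exact absurd (Finset.sum_nonpos hc) (not_le.mpr hpos)
  refine ⟨a, ha, fun k => ?_⟩
  by_contra hk
  push Not at hk
  have hV0 : 0 ≤ V (col a) ^ 2 := sq_nonneg _
  have h1 : 0 < 1 - ∑ k, SS J k (col a) := by
    by_contra hc
    push Not at hc
    have : F (col a) ≤ 0 := mul_nonpos_of_nonneg_of_nonpos hV0 hc
    linarith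
  have hSS0 : ∀ l, 0 ≤ SS J l (col a) := by
    intro l
    refine le_trans ?_ (SS_lower J hJ l (col a))
    split_ifs <;> norm_num
  have h2 : SS J k (col a) ≤ ∑ l, SS J l (col a) :=
    Finset.single_le_sum (fun l _ => hSS0 l) (Finset.mem_univ k)
  have h3 := SS_lower J hJ k (col a)
  rw [if_pos hk] at h3
  linarith

end Pool.Agent.H50.SC
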