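import Pool.Agent.H50.SC.Basic

set_option autoImplicit false
set_option linter.unusedSectionVars false

/-! # Enumeration of the sieving primes, colouring of the integers -/

namespace Pool.Agent.H50.SC

open Finset

/-- enumeration of a finite set of naturals -/
noncomputable def emb (PP : Finset ℕ) : Fin PP.card ↪ ℕ :=
  (PP.equivFin.symm.toEmbedding).trans (Function.Embedding.subtype _)

lemma emb_mem (PP : Finset ℕ) (i : Fin PP.card) : emb PP i ∈ PP := (PP.equivFin.symm i).2

lemma emb_surj (PP : Finset ℕ) {p : ℕ} (hp : p ∈ PP) : ∃ i, emb PP i = p :=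
  ⟨PP.equivFin ⟨p, hp⟩, by simp [emb]⟩

open Classical in
theorem Asum_enum (PP : Finset ℕ) (x : ℝ) :
    Asum (fun i => ((emb PP i : ℕ) : ℝ)) (fun i => 1 / ((emb PP i : ℕ) : ℝ)) x =
      ∑ s ∈ (PP.powerset.filter (fun s : Finset ℕ => s.Nonempty ∧ ∏ p ∈ s, (p : ℝ) ≤ x)),
        ∏ p ∈ s, 1 / (p : ℝ) := by
  unfold Asum
  refine Finset.sum_bij' (fun s _ => s.map (emb PP))
    (fun t _ => univ.filter (fun i => emb PP i ∈ t)) ?_ ?_ ?_ ?_ ?_
  · intro s hs
    rw [Finset.mem_filter] at hs ⊢
    refine ⟨Finset.mem_powerset.mpr ?_, hs.2.1.map, ?_⟩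
    · intro p hp
      obtain ⟨i, _, rfl⟩ := Finset.mem_map.mp hp
      exact emb_mem PP i
    · rw [Finset.prod_map]
      exact hs.2.2
  · intro t ht
    rw [Finset.mem_filter, Finset.mem_powerset] at ht
    have hmap : (univ.filter (fun i => emb PP i ∈ t)).map (emb PP) = t := by
      ext p
      rw [Finset.mem_map]
      constructor
      · rintro ⟨i, hi, rfl⟩
        exact (Finset.mem_filter.mp hi).2
      · intro hp
        obtain ⟨i, rfl⟩ := emb_surj PP (ht.1 hp)
        exact ⟨i, Finset.mem_filter.mpr ⟨Finset.mem_univ _, hp⟩, rfl⟩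
    rw [Finset.mem_filter]
    refine ⟨Finset.mem_univ _, ?_, ?_⟩
    · have := ht.2.1
      rw [← hmap] at this
      exact Finset.map_nonempty.mp this
    · have := ht.2.2
      rw [← hmap, Finset.prod_map] at this
      exact this
  · intro s _
    ext i
    rw [Finset.mem_filter, Finset.mem_map' (emb PP)]
    simp
  · intro t ht
    rw [Finset.mem_filter, Finset.mem_powerset] at ht
    ext p
    rw [Finset.mem_map]
    constructor
    · rintro ⟨i, hi, rfl⟩
      exact (Finset.mem_filter.mp hi).2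
    · intro hp
      obtain ⟨i, rfl⟩ := emb_surj PP (ht.1 hp)
      exact ⟨i, Finset.mem_filter.mpr ⟨Finset.mem_univ _, hp⟩, rfl⟩
  · intro s _
    rw [Finset.prod_map]

/-- Chinese remainder theorem for a finite family of pairwise coprime moduli -/
theorem crt_int {ι : Type} (s : Finset ι) (p : ι → ℤ)
    (hp : ∀ i ∈ s, ∀ j ∈ s, i ≠ j → IsCoprime (p i) (p j)) (c : ι → ℤ) :
    ∃ r : ℤ, ∀ i ∈ s, p i ∣ r - c i := by
  classical
  induction s using Finset.induction_on with
  | empty => exact ⟨0, by simp⟩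
  | insert j s hj ih =>
    obtain ⟨r, hr⟩ := ih (fun i hi k hk hik =>
      hp i (Finset.mem_insert_of_mem hi) k (Finset.mem_insert_of_mem hk) hik)
    have hcop : IsCoprime (∏ i ∈ s, p i) (p j) := by
      apply IsCoprime.prod_left
      intro i hi
      exact hp i (Finset.mem_insert_of_mem hi) j (Finset.mem_insert_self _ _)
        (fun h => hj (h ▸ hi))
    obtain ⟨a, b, hab⟩ := hcop
    refine ⟨r + (∏ i ∈ s, p i) * a * (c j - r), ?_⟩
    intro i hi
    rcases Finset.mem_insert.mp hi with rfl | hi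
    · have : r + (∏ i ∈ s, p i) * a * (c i - r) - c i = p i * (b * (r - c i)) := by
        have h1 : (∏ i ∈ s, p i) * a = 1 - b * p i := by linarith
        rw [h1]; ring
      rw [this]
      exact dvd_mul_right _ _
    · have h1 : r + (∏ i ∈ s, p i) * a * (c j - r) - c i =
          (r - c i) + (∏ i ∈ s, p i) * (a * (c j - r)) := by ring
      rw [h1]
      exact dvd_add (hr i hi) (Dvd.dvd.mul_right (Finset.dvd_prod_of_mem p hi) _)

section
variable {κ : Type} [Fintype κ] [DecidableEq κ]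

open Classical in
/-- colouring of the integers: prime number `i` kills the shift `k` -/
noncomputable def colr (PP : Finset ℕ) (res : ℕ → κ → ℤ) (a : ℤ) : Col PP.card κ := fun i =>
  if h : ∃ k, ((emb PP i : ℕ) : ℤ) ∣ a - res (emb PP i) k then some h.choose else none

lemma colr_eq {PP : Finset ℕ} {res : ℕ → κ → ℤ}
    (hinj : ∀ p ∈ PP, ∀ k l, k ≠ l → ¬ ((p : ℤ) ∣ res p k - res p l)) (a : ℤ) (i : Fin PP.card)
    (k : κ) : colr PP res a i = some k ↔ ((emb PP i : ℕ) : ℤ) ∣ a - res (emb PP i) k := by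
  unfold colr
  constructor
  · intro h
    split_ifs at h with h1
    have h2 := Option.some.inj h
    have h3 := h1.choose_spec
    rw [h2] at h3
    exact h3
  · intro h
    have h1 : ∃ k, ((emb PP i : ℕ) : ℤ) ∣ a - res (emb PP i) k := ⟨k, h⟩
    rw [dif_pos h1]
    congr 1
    by_contra hne
    apply hinj (emb PP i) (emb_mem PP i) h1.choose k hne
    have h3 := h1.choose_spec
    have h4 := dvd_sub h h3
    have h5 : a - res (emb PP i) k - (a - res (emb PP i) h1.choose) =
        res (emb PP i) h1.choose - res (emb PP i) k := by ring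
    rwa [h5] at h4

/-- modulus of an assignment -/
noncomputable def qn (PP : Finset ℕ) (D : Col PP.card κ) : ℕ := ∏ i ∈ supp D, emb PP i

lemma emb_coprime {PP : Finset ℕ} (hP : ∀ p ∈ PP, p.Prime) {i j : Fin PP.card} (hij : i ≠ j) :
    Nat.Coprime (emb PP i) (emb PP j) :=
  (Nat.coprime_primes (hP _ (emb_mem PP i)) (hP _ (emb_mem PP j))).mpr
    (fun h => hij ((emb PP).injective h))

lemma qn_squarefree {PP : Finset ℕ} (hP : ∀ p ∈ PP, p.Prime) (D : Col PP.card κ) :
    Squarefree (qn PP D) := by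
  unfold qn
  refine Finset.squarefree_prod_of_pairwise_isCoprime ?_ ?_
  · intro i _ j _ hij
    exact (Nat.coprime_iff_isRelPrime.mp (emb_coprime hP hij))
  · intro i _
    exact (hP _ (emb_mem PP i)).squarefree

lemma qn_primeFactors {PP : Finset ℕ} (hP : ∀ p ∈ PP, p.Prime) (D : Col PP.card κ) {p : ℕ}
    (hp : p ∈ (qn PP D).primeFactors) : p ∈ PP := by
  rw [Nat.mem_primeFactors] at hp
  unfold qn at hp
  obtain ⟨i, _, hi⟩ := (Prime.dvd_finsetProd_iff hp.1.prime _).mp hp.2.1
  rw [(Nat.prime_dvd_prime_iff_eq hp.1 (hP _ (emb_mem PP i))).mp hi]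
  exact emb_mem PP i

lemma qn_cast (PP : Finset ℕ) (D : Col PP.card κ) :
    ((qn PP D : ℕ) : ℝ) = qq (fun i => ((emb PP i : ℕ) : ℝ)) D := by
  unfold qn qq
  rw [prod_nu1]
  push_cast
  rfl

lemma nu_eq (PP : Finset ℕ) (D : Col PP.card κ) :
    nu (fun i => 1 / ((emb PP i : ℕ) : ℝ)) D = 1 / ((qn PP D : ℕ) : ℝ) := by
  unfold nu qn
  rw [prod_nu1]
  push_cast
  rw [Finset.prod_div_distrib, Finset.prod_const_one]

/-- an elementary event is a residue class -/
theorem event_iff {PP : Finset ℕ} (hP : ∀ p ∈ PP, p.Prime) {res : ℕ → κ → ℤ}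
    (hinj : ∀ p ∈ PP, ∀ k l, k ≠ l → ¬ ((p : ℤ) ∣ res p k - res p l)) (D : Col PP.card κ) :
    ∃ r : ℤ, ∀ a : ℤ, (∀ i, D i ≠ none → colr PP res a i = D i) ↔ ((qn PP D : ℕ) : ℤ) ∣ a - r := by
  classical
  have hcop : ∀ i ∈ supp D, ∀ j ∈ supp D, i ≠ j →
      IsCoprime ((emb PP i : ℕ) : ℤ) ((emb PP j : ℕ) : ℤ) := fun i _ j _ hij =>
    Nat.isCoprime_iff_coprime.mpr (emb_coprime hP hij)
  obtain ⟨r, hr⟩ := crt_int (supp D) (fun i => ((emb PP i : ℕ) : ℤ)) hcop
    (fun i => match D i with | none => 0 | some k => res (emb PP i) k)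
  refine ⟨r, fun a => ?_⟩
  have key : ∀ i ∈ supp D, (colr PP res a i = D i ↔ ((emb PP i : ℕ) : ℤ) ∣ a - r) := by
    intro i hi
    obtain ⟨k, hk⟩ := Option.ne_none_iff_exists'.mp (mem_supp.mp hi)
    have h1 := hr i hi
    rw [hk] at h1 ⊢
    simp only at h1
    rw [colr_eq hinj]
    constructor
    · intro h2
      have := dvd_sub h2 h1
      have e : a - res (emb PP i) k - (r - res (emb PP i) k) = a - r := by ring
      rwa [e] at this
    · intro h2
      have := dvd_add h2 h1
      have e : a - r + (r - res (emb PP i) k) = a - res (emb PP i) k := by ring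
      rwa [e] at this
  constructor
  · intro h
    have : ((qn PP D : ℕ) : ℤ) = ∏ i ∈ supp D, ((emb PP i : ℕ) : ℤ) := by
      unfold qn; push_cast; rfl
    rw [this]
    apply Finset.prod_dvd_of_coprime
    · intro i hi j hj hij
      exact hcop i hi j hj hij
    · intro i hi
      exact (key i hi).mp (h i (mem_supp.mp hi))
  · intro h i hi
    have hi' : i ∈ supp D := mem_supp.mpr hi
    rw [key i hi']
    refine dvd_trans ?_ h
    have : (emb PP i : ℕ) ∣ qn PP D := Finset.dvd_prod_of_mem _ hi'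
    exact_mod_cast this

end

end Pool.Agent.H50.SC
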