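import Pool.Agent.H50.RK.Surv2

set_option autoImplicit false

/-! Tasks R, R1b (helper398): greedy choices, smooth numbers, Rankin's choice. -/

namespace Pool.Agent.H50.SC

open Finset

open scoped Classical

/-- nonzero classes, randomised (potential function) -/
theorem greedy (S : Finset ℕ) (hS : ∀ p ∈ S, p.Prime ∧ 3 ≤ p) (R : Finset ℕ) :
    ∃ b : ℕ → ℕ, (∀ p ∈ S, 1 ≤ b p ∧ b p < p) ∧
      ((R.filter (fun k => ∀ p ∈ S, ¬ k ≡ b p [MOD p])).card : ℝ) ≤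
        ∑ k ∈ R, ∏ p ∈ S with ¬ p ∣ k, (1 - 1 / ((p : ℝ) - 1)) := by
  obtain ⟨b, h1, h2⟩ := Pool.Agent.H50.RK.greedy S hS R
  refine ⟨b, h1, ?_⟩
  convert h2

/-- all classes -/
theorem greedy_all (S : Finset ℕ) (hS : ∀ p ∈ S, p.Prime) (R : Finset ℕ) :
    ∃ b : ℕ → ℕ, (∀ p ∈ S, b p < p) ∧
      ((R.filter (fun k => ∀ p ∈ S, ¬ k ≡ b p [MOD p])).card : ℝ) ≤
        R.card * ∏ p ∈ S, (1 - 1 / (p : ℝ)) :=
  Pool.Agent.H50.RK.greedy_all S hS R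

theorem smooth_count : ∃ y₀ : ℝ, ∀ y : ℝ, y₀ ≤ y → ∀ L : ℕ, y ≤ L →
    (((Finset.Icc 1 L).filter (fun m => ∀ p : ℕ, p.Prime → p ∣ m →
      Real.log p ≤ Real.log y * Real.log (Real.log (Real.log y)) /
        (10 * Real.log (Real.log y)))).card : ℝ) ≤ L / (Real.log y) ^ 3 :=
  Pool.Agent.H50.RK.smooth_count

theorem survivors : ∃ C : ℝ, 0 < C ∧ ∃ y₀ : ℝ, ∀ y : ℝ, y₀ ≤ y → ∀ L : ℕ, y ≤ L →
    (L : ℝ) ≤ y * (Real.log y) ^ 2 →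
    ∃ b : ℕ → ℕ, (∀ p : ℕ, p.Prime → (p : ℝ) ≤ y → 1 ≤ b p ∧ b p < p) ∧
      (((Finset.Icc 1 L).filter (fun k => ∀ p : ℕ, p.Prime → (p : ℝ) ≤ y →
        ¬ k ≡ b p [MOD p])).card : ℝ) ≤
      C * L * (Real.log (Real.log y)) ^ 2 /
        ((Real.log y) ^ 2 * Real.log (Real.log (Real.log y))) :=
  Pool.Agent.H50.RK.survivors

end Pool.Agent.H50.SC
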