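import Mathlib

set_option autoImplicit false

/-! # The covering sieve: definitions (helper256)

`Fin n` indexes the sieving primes, `κ` the shifts (colours) to be killed.  A point is described by
its colouring `x : Fin n → Option κ`: `x i = some k` means that the prime `i` kills the shift `k`. -/

namespace Pool.Agent.H50.SC

open Finset

/-- colourings -/
abbrev Col (n : ℕ) (κ : Type) := Fin n → Option κ

variable {n : ℕ} {κ : Type} [Fintype κ] [DecidableEq κ]

/-- model probability of a colour: each colour of `κ` has probability `g` -/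
noncomputable def wt (g : ℝ) (c : Option κ) : ℝ :=
  match c with
  | none => 1 - (Fintype.card κ : ℝ) * g
  | some _ => g

/-- `1` at `none`, `g` at the colours -/
noncomputable def nu1 (g : ℝ) (c : Option κ) : ℝ :=
  match c with
  | none => 1
  | some _ => g

/-- local basis functions: `1` and `1[c = k] - g` -/
noncomputable def psi1 (g : ℝ) (a c : Option κ) : ℝ :=
  match a with
  | none => 1
  | some k => (if c = some k then 1 else 0) - g

/-- expectation in the independent model -/
noncomputable def EE (g : Fin n → ℝ) (F : Col n κ → ℝ) : ℝ :=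
  ∑ x : Col n κ, (∏ i, wt (g i) (x i)) * F x

/-- basis functions -/
noncomputable def psi (g : Fin n → ℝ) (D x : Col n κ) : ℝ := ∏ i, psi1 (g i) (D i) (x i)

/-- linear combinations of the basis functions -/
noncomputable def VV (g : Fin n → ℝ) (y : Col n κ → ℝ) (x : Col n κ) : ℝ := ∑ D, y D * psi g D x

/-- product of the `g i` over the support of `D` -/
noncomputable def nu (g : Fin n → ℝ) (D : Col n κ) : ℝ := ∏ i, nu1 (g i) (D i)

/-- size (product of the `p i` over the support) of `D` -/
noncomputable def qq (p : Fin n → ℝ) (D : Col n κ) : ℝ := ∏ i, nu1 (p i) (D i)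

/-- indices of colour `k` -/
def fib (D : Col n κ) (k : κ) : Finset (Fin n) := univ.filter (fun i => D i = some k)

/-- coefficient `a(m) = -μ(m) h(m)`, `a(1) = 1` -/
noncomputable def al (h : Finset (Fin n) → ℝ) (s : Finset (Fin n)) : ℝ :=
  if s = ∅ then 1 else -((-1) ^ s.card * h s)

/-- coherent coefficients -/
noncomputable def yy (h : Finset (Fin n) → ℝ) (D : Col n κ) : ℝ := ∏ k, al h (fib D k)

/-- truncated coherent coefficients -/
noncomputable def yT (p : Fin n → ℝ) (h : Finset (Fin n) → ℝ) (Q : ℝ) (D : Col n κ) : ℝ :=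
  if qq p D ≤ Q then yy h D else 0

/-- total mass -/
noncomputable def Zs (κ : Type) [Fintype κ] [DecidableEq κ] (g : Fin n → ℝ)
    (h : Finset (Fin n) → ℝ) : ℝ := ∑ D : Col n κ, (yy h D) ^ 2 * nu g D

/-- erase the colour `k` -/
def er (k : κ) (D : Col n κ) : Col n κ := fun i => if D i = some k then none else D i

/-- reduced coefficients on the event that the colour `k` does not occur -/
noncomputable def red (g : Fin n → ℝ) (y : Col n κ → ℝ) (k : κ) (D' : Col n κ) : ℝ :=
  ∑ D with er k D = D', y D * ∏ i ∈ fib D k, (-(g i))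

/-- local weights for the moment bound -/
noncomputable def bet (g t : ℝ) (k₀ : κ) (c : Option κ) : ℝ :=
  match c with
  | none => 1 + 3 * t * g
  | some l => if l = k₀ then (1 + 3 * t) * g else g

/-- Bonferroni majorant of the event that the colour `k` does not occur -/
noncomputable def SS (J : ℕ) (k : κ) (x : Col n κ) : ℝ :=
  ∑ s : Finset (Fin n) with s.card ≤ J, (-1) ^ s.card * (if ∀ i ∈ s, x i = some k then 1 else 0)

/-- elementary events -/
noncomputable def ind (D x : Col n κ) : ℝ := if ∀ i, D i ≠ none → x i = D i then 1 else 0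

/-- `F` is a combination of elementary events of size at most `Q` with coefficient sum at most `B` -/
def Lv (p : Fin n → ℝ) (Q B : ℝ) (F : Col n κ → ℝ) : Prop :=
  ∃ f : Col n κ → ℝ, (∀ x, F x = ∑ D, f D * ind D x) ∧ ∑ D, |f D| ≤ B ∧
    ∀ D, f D ≠ 0 → qq p D ≤ Q

/-- sum of the `∏ g` over nonempty sets of size at most `x` -/
noncomputable def Asum (p g : Fin n → ℝ) (x : ℝ) : ℝ :=
  ∑ s : Finset (Fin n) with s.Nonempty ∧ ∏ i ∈ s, p i ≤ x, ∏ i ∈ s, g i

/-- hypotheses on the profile `h` -/
structure Hyp (p g : Fin n → ℝ) (h : Finset (Fin n) → ℝ) (z K : ℝ) : Prop where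
  p1 : ∀ i, 1 < p i
  g0 : ∀ i, 0 < g i
  z1 : 1 < z
  K0 : 0 ≤ K
  h0 : ∀ s, 0 ≤ h s
  h1 : ∀ s, h s ≤ 1
  anti : ∀ s t, s.Nonempty → s ⊆ t → h t ≤ h s
  supp : ∀ s, h s ≠ 0 → ∏ i ∈ s, p i ≤ z
  sum1 : ∑ s : Finset (Fin n) with s.Nonempty, h s * ∏ i ∈ s, g i = 1
  cost : ∑ s : Finset (Fin n) with s.Nonempty,
    (h s) ^ 2 * (∏ i ∈ s, g i) * Real.log (∏ i ∈ s, p i) ≤ K

end Pool.Agent.H50.SC
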